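import Pool.Agent.Y703.CT.StmF
import Pool.Agent.Y155.CT.Mwk

/-!
# Project CT: CT-SHC
-/

set_option autoImplicit false
set_option linter.unusedVariables false

open scoped Classical

namespace Pool.Agent.H70CT

open WeierstrassCurve
open Pool.Agent.Y692.QS (Ei w nr toC)
open Pool.Agent.Y715.T.Gi Pool.Agent.Y715.T.Nr Pool.Agent.Y715.T.Df Pool.Agent.Y715.T.Ell
open Pool.Agent.Y703.CT Pool.Agent.Y155.CT

variable {i₀ : QB} {hi : i₀ ^ 2 + i₀ + 1 = 0} {a : GK i₀ → ZMod 3}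

/-- in a finite group every element is the sum of an element of order prime to three and an element
of order a power of three -/
lemma fin_split {A : Type} [AddCommGroup A] [Finite A] (x : A) :
    ∃ (r : ℕ) (s : ℤ) (k : ℕ) (y z : A), x = y + z ∧ r • y = 0 ∧ 3 ^ k • z = 0 ∧
      (∃ v : ℤ, 3 * s + v * r = 1) := by
  set N := Nat.card A with hN
  have hN0 : N ≠ 0 := Nat.card_pos.ne'
  obtain ⟨k, r, hr3, hkr⟩ := Nat.exists_eq_pow_mul_and_not_dvd hN0 3 (by norm_num)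
  have hNx : N • x = 0 := card_nsmul_eq_zero'
  have hc0 : Nat.Coprime 3 r := (Nat.Prime.coprime_iff_not_dvd Nat.prime_three).mpr hr3
  have hc : Nat.Coprime (3 ^ k) r := Nat.Coprime.pow_left k hc0
  have hb : ((3 ^ k : ℕ) : ℤ) * Nat.gcdA (3 ^ k) r + (r : ℤ) * Nat.gcdB (3 ^ k) r = 1 := by
    rw [← Nat.gcd_eq_gcd_ab, hc]
    rfl
  have hb0 : ((3 : ℕ) : ℤ) * Nat.gcdA 3 r + (r : ℤ) * Nat.gcdB 3 r = 1 := by
    rw [← Nat.gcd_eq_gcd_ab, hc0]
    rfl
  refine ⟨r, Nat.gcdA 3 r, k, (((3 ^ k : ℕ) : ℤ) * Nat.gcdA (3 ^ k) r) • x,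
    ((r : ℤ) * Nat.gcdB (3 ^ k) r) • x, ?_, ?_, ?_, Nat.gcdB 3 r, ?_⟩
  · rw [← add_smul, hb, one_smul]
  · have e : r • ((((3 ^ k : ℕ) : ℤ) * Nat.gcdA (3 ^ k) r) • x)
        = (Nat.gcdA (3 ^ k) r) • (N • x) := by
      rw [← natCast_zsmul, ← natCast_zsmul, smul_smul, smul_smul, hkr]
      congr 1
      push_cast
      ring
    rw [e, hNx, smul_zero]
  · have e : (3 ^ k) • (((r : ℤ) * Nat.gcdB (3 ^ k) r) • x)
        = (Nat.gcdB (3 ^ k) r) • (N • x) := by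
      rw [← natCast_zsmul, ← natCast_zsmul, smul_smul, smul_smul, hkr]
      congr 1
      push_cast
      ring
    rw [e, hNx, smul_zero]
  · push_cast at hb0
    linarith

/-- the points over `ℚ(ω)` modulo `1 - ω` -/
lemma mod_dd (hM : MwK hi a) {Q : Pt QB} (hQ : Q ∈ AG hi a) :
    ∃ Q' ∈ AG hi a, ∃ c, Q = dd hi Q' + tt QB c := by
  have hfin : Finite (AG hi a) := hM.1
  obtain ⟨r, s, k, y, z, hx, hy, hz, v, hv⟩ := fin_split (⟨Q, hQ⟩ : AG hi a)
  have hx' : Q = y.1 + z.1 := congrArg Subtype.val hx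
  have hy' : r • y.1 = 0 := congrArg Subtype.val hy
  have hz' : 3 ^ k • z.1 = 0 := congrArg Subtype.val hz
  have hzt : ∃ c, z.1 = tt QB c := by
    rcases hM.2 z.1 z.2 k hz' with h | h | h
    · exact ⟨0, by rw [h, tt_zero]⟩
    · exact ⟨1, by rw [h, tt_one]⟩
    · exact ⟨-1, by rw [h, tt_neg_one]⟩
  obtain ⟨c, hc⟩ := hzt
  have h3 : y.1 = 3 • (s • y.1) := by
    have e1 : y.1 = (3 * s + v * r) • y.1 := by rw [hv, one_smul]
    have e2 : (v * (r : ℤ)) • y.1 = 0 := by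
      rw [mul_smul, natCast_zsmul, hy', smul_zero]
    rw [add_smul, e2, add_zero, mul_smul] at e1
    have e3 : (3 : ℤ) • (s • y.1) = (3 : ℕ) • (s • y.1) := by norm_cast
    exact e1.trans e3
  have hsy : s • y.1 ∈ AG hi a := zsmul_mem y.2 s
  refine ⟨dd hi (-im (isE QB) hi (im (isE QB) hi (s • y.1))),
    dd_mem (neg_mem (im_mem (im_mem hsy))), c, ?_⟩
  rw [dd_dd, hx', hc]
  congr 1
  rw [smul_neg, map_neg, neg_neg, map_nsmul, im3, ← h3]

theorem t_SHC : S_SHC := by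
  intro D hD i₀ hi u a hT _ hSh hM h hlc hmul hloc
  have h3 : ∀ c : ZMod 3, (3 : ℕ) • tt QB c = 0 := fun c => by
    have h := three_tt c
    have e3 : (3 : ℤ) • tt QB c = (3 : ℕ) • tt QB c := by norm_cast
    rwa [e3] at h
  obtain ⟨P, hP⟩ := hSh 1 (fun σ => tt QB (h σ)) (hlc.comp (tt QB))
    (fun σ τ => by
      show tt QB (h (σ * τ)) = tt QB (h σ) + ah hi a σ (tt QB (h τ))
      rw [ah_tt, hmul, tt_add])
    (fun p _ ι => by
      obtain ⟨R, hR⟩ := hloc p ι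
      refine ⟨R, fun τ σ hc => ?_⟩
      rw [pm_tt, hR τ σ hc])
    ⟨0, fun σ => by
      show 3 ^ 1 • tt QB (h σ) = ah hi a σ 0 - 0
      rw [map_zero, sub_zero, pow_one, h3]⟩
  have hP' : ∀ σ, tt QB (h σ) = ah hi a σ P - P := hP
  have hQ : dd hi P ∈ AG hi a := fun σ => by
    have e : ah hi a σ P = P + tt QB (h σ) := by rw [hP']; abel
    rw [ah_dd, e, map_add, dd_tt, add_zero]
  obtain ⟨Q', hQ', c, hc⟩ := mod_dd hM hQ
  have h0 : dd hi (P - Q' - c.val • T3 hi) = 0 := by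
    rw [map_sub, map_sub, map_nsmul, dd_T3, nsmul_tt, mul_one, ZMod.natCast_zmod_val, hc]
    abel
  obtain ⟨d, hd⟩ := dd_ker hi h0
  have hPe : P = Q' + c.val • T3 hi + tt QB d := by rw [← hd]; abel
  refine ⟨-c, fun σ => ?_⟩
  apply tt_inj (L := QB)
  have h1 := ah_nT3 hi a σ c
  have h2 : ah hi a σ Q' = Q' := hQ' σ
  rw [neg_mul, ← tt_neg, ← h1, hP' σ]
  conv_lhs => rw [hPe]
  rw [map_add, map_add, h2, ah_tt]
  abel

end Pool.Agent.H70CT
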